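import Pool.Agent.Helper25.FN.Spec
import Pool.Agent.Helper82.FN.WD

/-!
# FN, part FBS (helper95): solutions of `P(∂) F = 0` of exponential type are Fourier-Borel transforms of
analytic functionals which annihilate `P · H(ℂ^n)`.
-/

set_option autoImplicit false

namespace Pool.Agent.Helper95.FN.FBS

open Pool.Agent.Helper25.FN Pool.Agent.Helper25.FB.Inj
open scoped ContDiff

/-- uniqueness of the coefficients in one variable -/
theorem uniq1 (a : ℕ → ℂ) (h : ∀ t : ℂ, HasSum (fun k => a k * t ^ k) 0) : ∀ k, a k = 0 := by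
  have h1 : HasFPowerSeriesAt (0 : ℂ → ℂ)
      (fun n => ContinuousMultilinearMap.mkPiRing ℂ (Fin n) (a n)) 0 := by
    rw [hasFPowerSeriesAt_iff]
    refine Filter.Eventually.of_forall fun z => ?_
    have h2 := h z
    have h3 : (fun n => z ^ n • FormalMultilinearSeries.coeff
        (fun n => ContinuousMultilinearMap.mkPiRing ℂ (Fin n) (a n)) n) =
        fun k => a k * z ^ k := by
      funext k
      simp [FormalMultilinearSeries.coeff, mul_comm]
    rw [h3]
    exact h2
  have h2 := h1.eq_zero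
  intro k
  have h3 := congrFun h2 k
  have h4 := congrArg (fun m : ContinuousMultilinearMap ℂ (fun _ : Fin k => ℂ) ℂ => m 1) h3
  simpa using h4

/-- uniqueness of the coefficients -/
theorem uniq : ∀ (n : ℕ) (c : (Fin n → ℕ) → ℂ),
    (∀ z : Fin n → ℂ, HasSum (fun α : Fin n → ℕ => c α * ∏ i, z i ^ α i) 0) → ∀ α, c α = 0 := by
  intro n
  induction n with
  | zero =>
    intro c h α
    have h1 := h 0
    have h2 := hasSum_unique (fun α : Fin 0 → ℕ => c α * ∏ i, (0 : Fin 0 → ℂ) i ^ α i)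
    have h3 := h2.unique h1
    simp only [Finset.univ_eq_empty, Finset.prod_empty, mul_one] at h3
    exact (congrArg c (Subsingleton.elim _ _)).trans h3
  | succ n ih =>
    intro c h
    let e : ℕ × (Fin n → ℕ) ≃ (Fin (n + 1) → ℕ) := Fin.consEquiv (fun _ => ℕ)
    have key : ∀ (t : ℂ) (w : Fin n → ℂ), HasSum (fun p : ℕ × (Fin n → ℕ) =>
        c (e p) * (t ^ p.1 * ∏ i, w i ^ p.2 i)) 0 := by
      intro t w
      have h1 := (e.hasSum_iff).2 (h (Fin.cons t w))
      have h2 : ((fun α : Fin (n + 1) → ℕ => c α * ∏ i, (Fin.cons t w : Fin (n + 1) → ℂ) i ^ α i) ∘ e)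
          = fun p : ℕ × (Fin n → ℕ) => c (e p) * (t ^ p.1 * ∏ i, w i ^ p.2 i) := by
        funext p
        simp only [Function.comp_apply, Fin.prod_univ_succ, Fin.cons_zero, Fin.cons_succ]
        rfl
      rw [h2] at h1
      exact h1
    have hfib : ∀ (w : Fin n → ℂ) (k : ℕ), Summable fun β : Fin n → ℕ =>
        c (e (k, β)) * ∏ i, w i ^ β i := by
      intro w k
      have h1 := (key 1 w).summable.prod_factor k
      simpa using h1
    have hz : ∀ (w : Fin n → ℂ) (k : ℕ), ∑' β : Fin n → ℕ, c (e (k, β)) * ∏ i, w i ^ β i = 0 := by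
      intro w
      apply uniq1
      intro t
      refine (key t w).prod_fiberwise fun k => ?_
      have h1 := (hfib w k).hasSum.mul_right (t ^ k)
      refine h1.congr_fun ?_ |> id
      intro β
      ring
    intro α
    have h1 := ih (fun β => c (e (α 0, β))) (fun w => by
      have h2 := (hfib w (α 0)).hasSum
      rw [hz w (α 0)] at h2
      exact h2) (fun i => α i.succ)
    have h2 : e (α 0, fun i => α i.succ) = α := Fin.cons_self_tail α
    rwa [h2] at h1

open Classical in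
/-- the Taylor coefficients -/
noncomputable def tc {n : ℕ} (f : V n → ℂ) : (Fin n → ℕ) → ℂ :=
  if h : Differentiable ℂ f then Classical.choose (taylor f h) else 0

theorem tc_spec {n : ℕ} {f : V n → ℂ} (hf : Entire f) :
    (∀ ρ M : ℝ, 0 < ρ → (∀ z, ‖z‖ ≤ ρ → ‖f z‖ ≤ M) → ∀ α, ‖tc f α‖ * ρ ^ (∑ i, α i) ≤ M) ∧
      ∀ z, HasSum (fun α : Fin n → ℕ => tc f α * ∏ i, z i ^ α i) (f z) := by
  have h : tc f = Classical.choose (taylor f hf) := dif_pos hf
  rw [h]
  exact Classical.choose_spec (taylor f hf)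

theorem tc_eq {n : ℕ} {f : V n → ℂ} (hf : Entire f) {c : (Fin n → ℕ) → ℂ}
    (hc : ∀ z, HasSum (fun α : Fin n → ℕ => c α * ∏ i, z i ^ α i) (f z)) : tc f = c := by
  funext α
  have h := uniq n (fun α => tc f α - c α) (fun z => by
    have h1 := ((tc_spec hf).2 z).sub (hc z)
    rw [sub_self] at h1
    refine h1.congr_fun ?_ |> id
    intro β
    ring) α
  exact sub_eq_zero.1 h

/-- a functional given by coefficients of exponential growth -/
noncomputable def Tb {n : ℕ} (b : (Fin n → ℕ) → ℂ) (f : V n → ℂ) : ℂ := ∑' α, b α * tc f α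

theorem Tb_term {n : ℕ} {b : (Fin n → ℕ) → ℂ} {C D : ℝ} (hC : 0 ≤ C) (hD : 0 < D)
    (hb : ∀ α, ‖b α‖ ≤ C * D ^ (∑ i, α i)) {f : V n → ℂ} (hf : Entire f) {M : ℝ}
    (hM : ∀ z, ‖z‖ ≤ 2 * D → ‖f z‖ ≤ M) (α : Fin n → ℕ) :
    ‖b α * tc f α‖ ≤ C * M * (1 / 2 : ℝ) ^ (∑ i, α i) := by
  have h1 := (tc_spec hf).1 (2 * D) M (by positivity) hM α
  have h2 : D ^ (∑ i, α i) = (2 * D) ^ (∑ i, α i) * (1 / 2 : ℝ) ^ (∑ i, α i) := by
    rw [← mul_pow]
    congr 1
    ring
  calc ‖b α * tc f α‖ = ‖b α‖ * ‖tc f α‖ := norm_mul _ _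
    _ ≤ (C * D ^ (∑ i, α i)) * ‖tc f α‖ := mul_le_mul_of_nonneg_right (hb α) (norm_nonneg _)
    _ = C * (‖tc f α‖ * (2 * D) ^ (∑ i, α i)) * (1 / 2 : ℝ) ^ (∑ i, α i) := by rw [h2]; ring
    _ ≤ C * M * (1 / 2 : ℝ) ^ (∑ i, α i) := by gcongr

theorem Tb_summable {n : ℕ} {b : (Fin n → ℕ) → ℂ} {C D : ℝ} (hC : 0 ≤ C) (hD : 0 < D)
    (hb : ∀ α, ‖b α‖ ≤ C * D ^ (∑ i, α i)) {f : V n → ℂ} (hf : Entire f) :
    Summable fun α => b α * tc f α := by
  obtain ⟨M, hM⟩ := (isCompact_closedBall (0 : V n) (2 * D)).exists_bound_of_continuousOn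
    (Differentiable.continuous hf).continuousOn
  refine Summable.of_norm_bounded (g := fun α : Fin n → ℕ => C * M * (1 / 2 : ℝ) ^ (∑ i, α i))
    ((geom_summable n (1 / 2) (by norm_num) (by norm_num)).mul_left _) ?_
  intro α
  exact Tb_term hC hD hb hf (fun z hz => hM z (by simpa using hz)) α

theorem Tb_af {n : ℕ} {b : (Fin n → ℕ) → ℂ} {C D : ℝ} (hC : 0 ≤ C) (hD : 0 < D)
    (hb : ∀ α, ‖b α‖ ≤ C * D ^ (∑ i, α i)) : IsAF (Tb b) where
  add f g hf hg := by
    have h1 : tc (fun z => f z + g z) = fun α => tc f α + tc g α := by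
      refine tc_eq (Differentiable.fun_add hf hg) fun z => ?_
      have h2 := ((tc_spec hf).2 z).add ((tc_spec hg).2 z)
      refine h2.congr_fun ?_ |> id
      intro β
      ring
    unfold Tb
    rw [h1, ← (Tb_summable hC hD hb hf).tsum_add (Tb_summable hC hD hb hg)]
    refine tsum_congr fun α => ?_
    ring
  smul c f hf := by
    have h1 : tc (fun z => c * f z) = fun α => c * tc f α := by
      refine tc_eq (Differentiable.const_mul hf c) fun z => ?_
      have h2 := ((tc_spec hf).2 z).mul_left c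
      refine h2.congr_fun ?_ |> id
      intro β
      ring
    unfold Tb
    rw [h1, ← tsum_mul_left]
    refine tsum_congr fun α => ?_
    ring
  bound := by
    refine ⟨Metric.closedBall 0 (2 * D), C * ∑' α : Fin n → ℕ, (1 / 2 : ℝ) ^ (∑ i, α i),
      isCompact_closedBall _ _, fun f M hf hM hfM => ?_⟩
    have hs := geom_summable n (1 / 2) (by norm_num) (by norm_num)
    have h1 := tsum_of_norm_bounded (hs.hasSum.mul_left (C * M))
      (Tb_term hC hD hb hf (M := M) (fun z hz => hfM z (by simpa using hz)))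
    unfold Tb
    refine h1.trans (le_of_eq ?_)
    ring

/-- multiplication of an analytic functional by an entire function -/
theorem mulAF {n : ℕ} {T : (V n → ℂ) → ℂ} (hT : IsAF T) {g : V n → ℂ} (hg : Entire g) :
    IsAF (fun f => T (fun z => g z * f z)) where
  add f h hf hh := by
    have h1 : (fun z => g z * (f z + h z)) = fun z => g z * f z + g z * h z := by
      funext z; ring
    show T (fun z => g z * (f z + h z)) = _
    rw [h1]
    exact hT.add _ _ (Differentiable.fun_mul hg hf) (Differentiable.fun_mul hg hh)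
  smul c f hf := by
    have h1 : (fun z => g z * (c * f z)) = fun z => c * (g z * f z) := by
      funext z; ring
    show T (fun z => g z * (c * f z)) = _
    rw [h1]
    exact hT.smul c _ (Differentiable.fun_mul hg hf)
  bound := by
    obtain ⟨K, C, hK, h⟩ := hT.bound
    obtain ⟨G, hG⟩ := hK.exists_bound_of_continuousOn (Differentiable.continuous hg).continuousOn
    refine ⟨K, C * max G 0, hK, fun f M hf hM hfM => ?_⟩
    have h1 := h (fun z => g z * f z) (max G 0 * M) (Differentiable.fun_mul hg hf)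
      (by positivity) (fun z hz => by
        rw [norm_mul]
        exact mul_le_mul ((hG z hz).trans (le_max_left _ _)) (hfM z hz) (norm_nonneg _)
          (le_max_right _ _))
    refine h1.trans (le_of_eq ?_)
    ring

/-- the derivative of the Fourier-Borel transform -/
theorem fb_fderiv {n : ℕ} (T : H n →ₗ[ℂ] ℂ) (hT : IsAnalyticFunctional T) (z : Fin n → ℂ) :
    HasFDerivAt (FBT T) (∑ j, (T (jE_cexpo j z)) •
      (ContinuousLinearMap.proj (R := ℂ) (φ := fun _ : Fin n => ℂ) j)) z := by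
  obtain ⟨K, C0, hK, hb0⟩ := hT
  obtain ⟨R, hR, hKR⟩ := hK.isBounded.exists_pos_norm_le
  set C : ℝ := max C0 0 with hC
  have hC0 : 0 ≤ C := le_max_right _ _
  have hb : ∀ (f : H n) (M : ℝ), 0 ≤ M → (∀ z ∈ K, ‖f.1 z‖ ≤ M) → ‖T f‖ ≤ C * M :=
    fun f M hM h => (hb0 f M hM h).trans (mul_le_mul_of_nonneg_right (le_max_left _ _) hM)
  have hnR : 0 ≤ (n:ℝ) * R := by positivity
  have hexpb : ∀ ζ ∈ K, ∀ z : Fin n → ℂ, ‖Complex.exp (∑ j, ζ j * z j)‖ ≤
      Real.exp (n * R * ‖z‖) := by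
    intro ζ hζ z
    refine (Complex.norm_exp_le_exp_norm _).trans (Real.exp_le_exp.mpr ?_)
    exact jE_fb_inner_bound ζ z (hKR ζ hζ)
  set L : (Fin n → ℂ) →L[ℂ] ℂ :=
    ∑ j, (T (jE_cexpo j z)) • (ContinuousLinearMap.proj (R := ℂ) (φ := fun _ : Fin n => ℂ) j) with hL
  have hLv : ∀ v, L v = ∑ j, T (jE_cexpo j z) * v j := by
    intro v
    rw [hL]
    simp [ContinuousLinearMap.sum_apply, smul_eq_mul]
  rw [hasFDerivAt_iff_isLittleO_nhds_zero]
  refine Asymptotics.IsBigO.trans_isLittleO ?_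
    (Asymptotics.isLittleO_norm_pow_id (E' := Fin n → ℂ) one_lt_two)
  refine Asymptotics.IsBigO.of_bound (C * (Real.exp (n * R * ‖z‖) * (n * R) ^ 2)) ?_
  have hd : 0 < 1 / (n * R + 1) := by positivity
  filter_upwards [Metric.ball_mem_nhds (0 : Fin n → ℂ) hd] with v hv
  rw [mem_ball_zero_iff] at hv
  have hv1 : n * R * ‖v‖ ≤ 1 := by
    have h1 : ‖v‖ * (n * R + 1) < 1 := by rwa [lt_div_iff₀ (by positivity)] at hv
    nlinarith [norm_nonneg v]
  have hT1 : FBT T (z + v) - FBT T z - L v =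
      T (expo (z + v) - expo z - ∑ j, v j • jE_cexpo j z) := by
    rw [map_sub, map_sub, map_sum, hLv]
    unfold FBT
    congr 1
    refine Finset.sum_congr rfl fun j _ => ?_
    rw [map_smul, smul_eq_mul, mul_comm]
  rw [hT1]
  have hval : ∀ ζ : Fin n → ℂ, (expo (z + v) - expo z - ∑ j, v j • jE_cexpo j z : H n).1 ζ =
      Complex.exp (∑ j, ζ j * z j) *
        (Complex.exp (∑ j, ζ j * v j) - 1 - ∑ j, ζ j * v j) := by
    intro ζ
    have hs : ((∑ j, v j • jE_cexpo j z : H n)).1 ζ =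
        ∑ j, v j * (ζ j * Complex.exp (∑ i, ζ i * z i)) := by
      rw [AddSubmonoidClass.coe_finset_sum, Finset.sum_apply]
      rfl
    show Complex.exp (∑ j, ζ j * (z + v) j) - Complex.exp (∑ j, ζ j * z j) -
      ((∑ j, v j • jE_cexpo j z : H n)).1 ζ = _
    rw [hs]
    have he : ∑ j, ζ j * (z + v) j = ∑ j, ζ j * z j + ∑ j, ζ j * v j := by
      rw [← Finset.sum_add_distrib]
      refine Finset.sum_congr rfl fun j _ => ?_
      rw [Pi.add_apply]; ring
    rw [he, Complex.exp_add]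
    have h2 : ∑ j, v j * (ζ j * Complex.exp (∑ i, ζ i * z i)) =
        Complex.exp (∑ i, ζ i * z i) * ∑ j, ζ j * v j := by
      rw [Finset.mul_sum]
      refine Finset.sum_congr rfl fun j _ => ?_
      ring
    rw [h2]; ring
  have hM : 0 ≤ Real.exp (n * R * ‖z‖) * (n * R * ‖v‖) ^ 2 := by positivity
  have hfin := hb (expo (z + v) - expo z - ∑ j, v j • jE_cexpo j z)
    (Real.exp (n * R * ‖z‖) * (n * R * ‖v‖) ^ 2) hM (by
      intro ζ hζ
      rw [hval ζ, norm_mul]
      refine mul_le_mul (hexpb ζ hζ z) ?_ (norm_nonneg _) (Real.exp_pos _).le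
      have hib := jE_fb_inner_bound ζ v (hKR ζ hζ)
      refine (Complex.norm_exp_sub_one_sub_id_le (hib.trans hv1)).trans ?_
      exact pow_le_pow_left₀ (norm_nonneg _) hib 2)
  refine hfin.trans (le_of_eq ?_)
  rw [Real.norm_of_nonneg (by positivity)]
  ring

theorem wd_fb {n : ℕ} {T : (V n → ℂ) → ℂ} (hT : IsAF T) (j : Fin n) (z : V n) :
    wd j (FBorel T) z = T (fun ζ => ζ j * Complex.exp (∑ i, ζ i * z i)) := by
  have h1 : Entire (FBorel T) := (result.1 n T hT).1
  have h2 := ((Pool.Agent.Helper82.FN.WD.main n j).2.2.2.2 (FBorel T) h1).2.2.1 z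
  rw [h2]
  have h3 := fb_fderiv (lin hT) (lin_af hT) z
  have h4 : FBT (lin hT) = FBorel T := rfl
  rw [h4] at h3
  rw [h3.fderiv]
  rw [ContinuousLinearMap.sum_apply, Finset.sum_eq_single j]
  · simp only [ContinuousLinearMap.smul_apply, ContinuousLinearMap.proj_apply, Pi.single_eq_same,
      smul_eq_mul, mul_one]
    rfl
  · intro i _ hij
    simp only [ContinuousLinearMap.smul_apply, ContinuousLinearMap.proj_apply, smul_eq_mul]
    rw [Pi.single_eq_of_ne hij, mul_zero]
  · intro h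
    exact absurd (Finset.mem_univ j) h

theorem list_entire {n : ℕ} (l : List (Fin n)) : Entire (fun ζ : V n => (l.map ζ).prod) := by
  induction l with
  | nil => simpa [Entire] using differentiable_const (1 : ℂ)
  | cons j l ih =>
    have h1 : (fun ζ : V n => ((j :: l).map ζ).prod) = fun ζ => ζ j * (l.map ζ).prod := by
      funext ζ
      simp
    rw [h1]
    exact Differentiable.fun_mul (differentiable_apply j) ih

theorem dl_fb {n : ℕ} {T : (V n → ℂ) → ℂ} (hT : IsAF T) (l : List (Fin n)) :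
    ∀ z : V n, dl l (FBorel T) z =
      T (fun ζ => (l.map ζ).prod * Complex.exp (∑ i, ζ i * z i)) := by
  induction l with
  | nil =>
    intro z
    simp [dl, FBorel]
  | cons j l ih =>
    intro z
    have h1 : dl (j :: l) (FBorel T) = wd j (dl l (FBorel T)) := rfl
    have h2 : dl l (FBorel T) = FBorel (fun f => T (fun ζ => (l.map ζ).prod * f ζ)) := by
      funext z
      rw [ih z]
      rfl
    rw [h1, h2, wd_fb (mulAF hT (list_entire l))]
    congr 1
    funext ζ
    simp only [List.map_cons, List.prod_cons]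
    ring

theorem T_sum {n : ℕ} {T : (V n → ℂ) → ℂ} (hT : IsAF T) {ι : Type} (s : Finset ι) (c : ι → ℂ)
    (f : ι → V n → ℂ) (hf : ∀ i, Entire (f i)) :
    Entire (fun z => ∑ i ∈ s, c i * f i z) ∧
    T (fun z => ∑ i ∈ s, c i * f i z) = ∑ i ∈ s, c i * T (f i) := by
  classical
  induction s using Finset.induction_on with
  | empty =>
    constructor
    · simpa [Entire] using differentiable_const (0 : ℂ)
    · have h1 := hT.smul 0 (fun _ => 0) (differentiable_const (0 : ℂ))
      simpa using h1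
  | insert i s hi ih =>
    have h1 : (fun z => ∑ k ∈ insert i s, c k * f k z) =
        fun z => c i * f i z + ∑ k ∈ s, c k * f k z := by
      funext z
      rw [Finset.sum_insert hi]
    have h2 : Entire (fun z => c i * f i z) := Differentiable.const_mul (hf i) _
    rw [h1]
    refine ⟨Differentiable.fun_add h2 ih.1, ?_⟩
    rw [hT.add _ _ h2 ih.1, hT.smul _ _ (hf i), ih.2, Finset.sum_insert hi]

theorem prod_wl {n : ℕ} (α : Fin n →₀ ℕ) (ζ : V n) :
    ((wl α).map ζ).prod = ∏ i ∈ α.support, ζ i ^ α i := by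
  unfold wl
  rw [← Multiset.prod_coe, ← Multiset.map_coe, Multiset.coe_toList, Finsupp.toMultiset_map,
    Finsupp.prod_toMultiset, Finsupp.prod_mapDomain_index (fun _ => pow_zero _)
      (fun _ _ _ => pow_add _ _ _)]
  rfl

theorem PD_fb {n : ℕ} {T : (V n → ℂ) → ℂ} (hT : IsAF T) (P : Pol n) (z : V n) :
    PD P (FBorel T) z = FBorel (fun f => T (fun ζ => MvPolynomial.eval ζ P * f ζ)) z := by
  unfold PD
  have h1 : ∀ α : Fin n →₀ ℕ, Entire (fun ζ : V n => ((wl α).map ζ).prod *
      Complex.exp (∑ i, ζ i * z i)) := fun α =>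
    Differentiable.fun_mul (list_entire _) (expo_mem z)
  have h2 := (T_sum hT P.support P.coeff _ h1).2
  have h3 : ∀ α ∈ P.support, P.coeff α * dl (wl α) (FBorel T) z =
      P.coeff α * T (fun ζ : V n => ((wl α).map ζ).prod * Complex.exp (∑ i, ζ i * z i)) := by
    intro α _
    rw [dl_fb hT]
  rw [Finset.sum_congr rfl h3, ← h2]
  show _ = T _
  congr 1
  funext ζ
  rw [MvPolynomial.eval_eq, Finset.sum_mul]
  refine Finset.sum_congr rfl fun α _ => ?_
  rw [prod_wl]
  ring

theorem poly_entire {n : ℕ} (P : Pol n) : Entire (fun ζ : V n => MvPolynomial.eval ζ P) := by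
  have h := mulP_mem P (⟨fun _ => 1, differentiable_const _⟩ : H n)
  have h1 : (fun z : Fin n → ℂ => MvPolynomial.eval z P *
      ((⟨fun _ => 1, differentiable_const _⟩ : H n)).1 z) = fun z => MvPolynomial.eval z P := by
    funext z
    exact mul_one _
  rw [h1] at h
  exact h

/-- an analytic functional is determined by its transform -/
theorem zero_of_fb {n : ℕ} {T : (V n → ℂ) → ℂ} (hT : IsAF T) (h : ∀ z, FBorel T z = 0)
    (f : V n → ℂ) (hf : Entire f) : T f = 0 := by
  have h0 : ∀ α : Fin n → ℕ, (lin hT (mono α)) / ∏ i, ((α i).factorial : ℂ) = 0 := by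
    apply uniq n
    intro z
    have h1 := fb_hasSum (lin hT) (lin_af hT) z
    have h2 : FBT (lin hT) z = 0 := h z
    rw [h2] at h1
    refine h1.congr_fun ?_ |> id
    intro α
    rw [Finset.prod_div_distrib]
    ring
  have h1 : ∀ α, lin hT (mono α) = 0 := by
    intro α
    have h2 : (∏ i, ((α i).factorial : ℂ)) ≠ 0 :=
      Finset.prod_ne_zero_iff.2 fun i _ => by exact_mod_cast Nat.factorial_ne_zero _
    exact (div_eq_zero_iff.1 (h0 α)).resolve_right h2
  have h2 := moments_zero (lin hT) (lin_af hT) h1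
  exact LinearMap.congr_fun h2 (⟨f, hf⟩ : H n)

theorem main : S_FBS := by
  intro n P F hF hPD
  obtain ⟨hFe, C, B, hFB⟩ := hF
  set C' : ℝ := max C 0 with hC'
  set B' : ℝ := max B 0 with hB'
  have hC0 : 0 ≤ C' := le_max_right _ _
  have hB0 : 0 ≤ B' := le_max_right _ _
  have hFB' : ∀ ρ : ℝ, ∀ z : V n, ‖z‖ ≤ ρ → ‖F z‖ ≤ C' * Real.exp (B' * ρ) := by
    intro ρ z hz
    calc ‖F z‖ ≤ C * Real.exp (B * ‖z‖) := hFB z
      _ ≤ C' * Real.exp (B * ‖z‖) :=
          mul_le_mul_of_nonneg_right (le_max_left _ _) (Real.exp_pos _).le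
      _ ≤ C' * Real.exp (B' * ρ) := by
          refine mul_le_mul_of_nonneg_left (Real.exp_le_exp.2 ?_) hC0
          calc B * ‖z‖ ≤ B' * ‖z‖ := mul_le_mul_of_nonneg_right (le_max_left _ _) (norm_nonneg _)
            _ ≤ B' * ρ := mul_le_mul_of_nonneg_left hz hB0
  set b : (Fin n → ℕ) → ℂ := fun α => (∏ i, ((α i).factorial : ℂ)) * tc F α with hb
  have hbb : ∀ α, ‖b α‖ ≤ (C' * Real.exp B') * (Real.exp B') ^ (∑ i, α i) := by
    intro α
    set N : ℕ := ∑ i, α i with hN
    have h1 := (tc_spec hFe).1 ((N : ℝ) + 1) _ (by positivity) (hFB' ((N : ℝ) + 1)) α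
    rw [← hN] at h1
    have h2 : ‖(∏ i, ((α i).factorial : ℂ))‖ ≤ ((N : ℝ) + 1) ^ N := by
      rw [← Nat.cast_prod, Complex.norm_natCast]
      have h3 : ∏ i, (α i).factorial ≤ N.factorial :=
        Nat.le_of_dvd (Nat.factorial_pos _) (Nat.prod_factorial_dvd_factorial_sum _ _)
      have h4 : N.factorial ≤ N ^ N := Nat.factorial_le_pow N
      have h5 : N ^ N ≤ (N + 1) ^ N := Nat.pow_le_pow_left (Nat.le_succ N) N
      exact_mod_cast h3.trans (h4.trans h5)
    calc ‖b α‖ = ‖(∏ i, ((α i).factorial : ℂ))‖ * ‖tc F α‖ := norm_mul _ _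
      _ ≤ ((N : ℝ) + 1) ^ N * ‖tc F α‖ := mul_le_mul_of_nonneg_right h2 (norm_nonneg _)
      _ = ‖tc F α‖ * ((N : ℝ) + 1) ^ N := mul_comm _ _
      _ ≤ C' * Real.exp (B' * ((N : ℝ) + 1)) := h1
      _ = (C' * Real.exp B') * (Real.exp B') ^ N := by
          rw [← Real.exp_nat_mul, mul_assoc, ← Real.exp_add]
          congr 2
          ring
  have hAF : IsAF (Tb b) := Tb_af (by positivity) (Real.exp_pos B') hbb
  have hFT : ∀ z, FBorel (Tb b) z = F z := by
    intro z
    have h1 : tc (fun ζ : V n => Complex.exp (∑ j, ζ j * z j)) =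
        fun α => ∏ i, z i ^ α i / ((α i).factorial : ℂ) :=
      tc_eq (expo_mem z) (fun ζ => expo_hasSum z ζ)
    show Tb b (fun ζ : V n => Complex.exp (∑ j, ζ j * z j)) = F z
    unfold Tb
    rw [h1, ← ((tc_spec hFe).2 z).tsum_eq]
    refine tsum_congr fun α => ?_
    have h2 : (∏ i, ((α i).factorial : ℂ)) ≠ 0 :=
      Finset.prod_ne_zero_iff.2 fun i _ => by exact_mod_cast Nat.factorial_ne_zero _
    show ((∏ i, ((α i).factorial : ℂ)) * tc F α) * ∏ i, z i ^ α i / ((α i).factorial : ℂ) = _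
    rw [Finset.prod_div_distrib]
    field_simp
  refine ⟨Tb b, ⟨hAF, fun f hf => ?_⟩, hFT⟩
  refine zero_of_fb (mulAF hAF (poly_entire P)) (fun z => ?_) f hf
  rw [← PD_fb hAF P z]
  have h1 : FBorel (Tb b) = F := funext hFT
  rw [h1]
  exact hPD z

end Pool.Agent.Helper95.FN.FBS
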